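import Mathlib
import Pool.Agent.H158.TWLimit
import Pool.Agent.H158.TWExist

/-!
# The Thomas-Fermi-von Weizsäcker atomic density root need not be convex (MP_3d36e1_mp, Q1, Q2)

The definitions `E3`, `WeakGrad`, `Adm`, `energy`, `IsMin` are in `Pool.Agent.H158.TWBase`:

* `E3` is `ℝ³`;
* `WeakGrad u g`: `∫ u ∂_v φ = -∫ ⟨g, v⟩ φ` for all test functions `φ` and all `v`;
* `Adm p ρ g`: `ρ ≥ 0`, `ρ ∈ L¹ ∩ L^p`, `g ∈ L²` is the weak gradient of `√ρ`, and
  `ρ(x) ρ(y) / |x - y|` is integrable;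
* `energy A γ p z ρ g = A ∫ |g|² + (γ/p) ∫ ρ^p - ∫ (z/|x|) ρ + (1/2) ∬ ρ(x) ρ(y) / |x - y|`;
* `IsMin A γ p z lam ρ g`: `(ρ, g)` is admissible with `∫ ρ ≤ lam` and minimises the energy among
  all such pairs.

The theorem: there are parameters `A, γ, z, lam > 0` and `p > 1` (in the proof `A = 1`, `p = 2`,
`γ = z` large, `lam = ∫ (1/|x| - 1)₊`) such that a minimiser exists and for every minimiser the
radial profile of `√ρ` is not convex on `(0, ∞)` (so not convex on `[0, ∞)` either, and, since a log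
convex function is convex, not log convex).
-/

set_option autoImplicit false

open MeasureTheory Set

namespace Pool.Agent.Results.MP_3d36e1_mp.NotConvex

open Pool.Agent.H158.TW

/-- **For some parameters the square root `ψ` of the TFW atomic minimiser is not a convex function
of `r = |x|` on `(0, ∞)`.** -/
theorem result : ∃ A γ p z lam : ℝ, 0 < A ∧ 0 < γ ∧ 1 < p ∧ 0 < z ∧ 0 < lam ∧
    (∃ ρ g, IsMin A γ p z lam ρ g) ∧
    ∀ (ρ : E3 → ℝ) (g : E3 → E3), IsMin A γ p z lam ρ g →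
      ∀ f : ℝ → ℝ, (∀ᵐ x : E3, √(ρ x) = f ‖x‖) → ¬ ConvexOn ℝ (Ioi 0) f := by
  obtain ⟨n, hn, h⟩ := min_not_convex
  exact ⟨1, n, 2, n, lam0, one_pos, hn, one_lt_two, hn, lam0_pos,
    exists_min one_pos hn hn lam0_pos, h⟩

end Pool.Agent.Results.MP_3d36e1_mp.NotConvex
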